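import Pool.Agent.Helper16.SYM.Defs

/-!
# SYM-C1: tensor powers of the coordinate ring of a geometrically irreducible plane curve
-/

set_option autoImplicit false
set_option linter.unusedVariables false

namespace Pool.Agent.Helper50.SYM

open Polynomial
open scoped TensorProduct

universe u

/-- Over an algebraically closed field, every nonzero element of a domain of finite type survives
under some rational point. -/
lemma exists_point {k : Type*} [Field k] [IsAlgClosed k] {A : Type*} [CommRing A] [IsDomain A]
    [Algebra k A] [Algebra.FiniteType k A] (a : A) (ha : a ≠ 0) : ∃ π : A →ₐ[k] k, π a ≠ 0 := by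
  have hJ : IsJacobsonRing A := isJacobsonRing_of_finiteType (A := k)
  have h1 : (⊥ : Ideal A).jacobson = ⊥ := by
    refine hJ.out ?_
    exact (Ideal.isPrime_bot : (⊥ : Ideal A).IsPrime).isRadical
  have h2 : a ∉ (⊥ : Ideal A).jacobson := by
    rw [h1, Ideal.mem_bot]
    exact ha
  have h3 : ∃ m : Ideal A, m.IsMaximal ∧ a ∉ m := by
    by_contra hcon
    push Not at hcon
    apply h2
    unfold Ideal.jacobson
    rw [Ideal.mem_sInf]
    intro I hI
    exact hcon I hI.2
  obtain ⟨m, hm, ham⟩ := h3
  let _ : Field (A ⧸ m) := Ideal.Quotient.field m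
  have : Algebra.FiniteType k (A ⧸ m) := inferInstance
  have : Module.Finite k (A ⧸ m) := finite_of_finite_type_of_isJacobsonRing k (A ⧸ m)
  have : Algebra.IsIntegral k (A ⧸ m) := inferInstance
  have hbij : Function.Bijective (Algebra.ofId k (A ⧸ m)) :=
    IsAlgClosed.algebraMap_bijective_of_isIntegral
  let E : k ≃ₐ[k] (A ⧸ m) := AlgEquiv.ofBijective (Algebra.ofId k (A ⧸ m)) hbij
  refine ⟨E.symm.toAlgHom.comp (Ideal.Quotient.mkₐ k m), ?_⟩
  intro h
  apply ham
  have h4 : E.symm (Ideal.Quotient.mk m a) = 0 := h
  rw [EmbeddingLike.map_eq_zero_iff] at h4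
  exact Ideal.Quotient.eq_zero_iff_mem.mp h4

/-- The tensor product of two domains over an algebraically closed field is a domain, if one of
them is of finite type. -/
theorem isDomain_tensorProduct {k : Type*} [Field k] [IsAlgClosed k] {A B : Type*} [CommRing A]
    [IsDomain A] [Algebra k A] [Algebra.FiniteType k A] [CommRing B] [IsDomain B] [Algebra k B] :
    IsDomain (A ⊗[k] B) := by
  classical
  let β := Module.Basis.ofVectorSpace k B
  let β' := Algebra.TensorProduct.basis A β
  -- specialisation
  have hspec : ∀ (π : A →ₐ[k] k) (x : A ⊗[k] B) (i),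
      β.repr ((Algebra.TensorProduct.lift ((Algebra.ofId k B).comp π) (AlgHom.id k B)
        (fun _ _ => Commute.all _ _)) x) i = π (β'.repr x i) := by
    intro π x i
    induction x using TensorProduct.induction_on with
    | zero => simp
    | tmul a b =>
      rw [Algebra.TensorProduct.lift_tmul]
      simp only [β', Algebra.TensorProduct.basis_repr_tmul]
      simp only [AlgHom.coe_comp, Function.comp_apply, AlgHom.coe_id, id_eq, Finsupp.smul_apply,
        Finsupp.mapRange_apply, smul_eq_mul, map_mul, AlgHom.commutes]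
      rw [Algebra.ofId_apply, ← Algebra.smul_def, map_smul, Finsupp.smul_apply, smul_eq_mul]
      rfl
    | add x y hx hy => simp only [map_add, Finsupp.add_apply, hx, hy]
  have hnz : NoZeroDivisors (A ⊗[k] B) := by
    refine ⟨?_⟩
    intro x y hxy
    by_contra hcon
    push Not at hcon
    obtain ⟨hx, hy⟩ := hcon
    have h1 : ∃ i, β'.repr x i ≠ 0 := by
      by_contra h
      push Not at h
      apply hx
      rw [← LinearEquiv.map_eq_zero_iff β'.repr]
      ext i
      exact h i
    have h2 : ∃ j, β'.repr y j ≠ 0 := by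
      by_contra h
      push Not at h
      apply hy
      rw [← LinearEquiv.map_eq_zero_iff β'.repr]
      ext i
      exact h i
    obtain ⟨i, hi⟩ := h1
    obtain ⟨j, hj⟩ := h2
    obtain ⟨π, hπ⟩ := exists_point (k := k) _ (mul_ne_zero hi hj)
    rw [map_mul] at hπ
    have h3 := congrArg (Algebra.TensorProduct.lift ((Algebra.ofId k B).comp π) (AlgHom.id k B)
        (fun _ _ => Commute.all _ _)) hxy
    rw [map_mul, map_zero, mul_eq_zero] at h3
    rcases h3 with h3 | h3
    · have h4 := hspec π x i
      rw [h3, map_zero, Finsupp.zero_apply] at h4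
      rw [← h4, zero_mul] at hπ
      exact hπ rfl
    · have h4 := hspec π y j
      rw [h3, map_zero, Finsupp.zero_apply] at h4
      rw [← h4, mul_zero] at hπ
      exact hπ rfl
  have hnt : Nontrivial (A ⊗[k] B) := by
    obtain ⟨π, hπ⟩ := exists_point (k := k) (1 : A) one_ne_zero
    refine ⟨⟨1, 0, ?_⟩⟩
    intro h
    have h3 := congrArg (Algebra.TensorProduct.lift ((Algebra.ofId k B).comp π) (AlgHom.id k B)
        (fun _ _ => Commute.all _ _)) h
    rw [map_one, map_zero] at h3
    exact one_ne_zero h3
  exact NoZeroDivisors.to_isDomain _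

/-- A field embedding of the coefficients maps a basis of `AdjoinRoot G` to an independent
family. -/
lemma exists_basis {K k : Type u} [Field K] [Field k] [Algebra K k] {G : K[X][X]}
    (hG : G.Monic) : ∃ (ι : Type) (B : Module.Basis ι K (AdjoinRoot G))
      (ω : AdjoinRoot G →+* AdjoinRoot (G.map (mapRingHom (algebraMap K k)))),
      (∀ x : K, ω (algebraMap K _ x) = algebraMap k _ (algebraMap K k x)) ∧
      LinearIndependent k (fun i => ω (B i)) := by
  classical
  let G' : k[X][X] := G.map (mapRingHom (algebraMap K k))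
  have hG' : G'.Monic := hG.map _
  let ω : AdjoinRoot G →+* AdjoinRoot G' := AdjoinRoot.map (mapRingHom (algebraMap K k)) G G'
    dvd_rfl
  have hdeg : G'.natDegree = G.natDegree := hG.natDegree_map _
  let B := (Polynomial.basisMonomials K).smulTower (AdjoinRoot.powerBasis' hG).basis
  let B' := (Polynomial.basisMonomials k).smulTower (AdjoinRoot.powerBasis' hG').basis
  have hdim : (AdjoinRoot.powerBasis' hG).dim = (AdjoinRoot.powerBasis' hG').dim := by
    rw [AdjoinRoot.powerBasis'_dim, AdjoinRoot.powerBasis'_dim, hdeg]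
  have hω : ∀ i, ω (B i) = B' (i.1, Fin.cast hdim i.2) := by
    intro i
    simp only [B, B', Module.Basis.smulTower_apply, PowerBasis.basis_eq_pow,
      AdjoinRoot.powerBasis'_gen, Polynomial.coe_basisMonomials]
    rw [Algebra.smul_def, Algebra.smul_def, map_mul, map_pow]
    congr 1
    · rw [AdjoinRoot.algebraMap_eq, AdjoinRoot.algebraMap_eq]
      simp only [ω, AdjoinRoot.map_of]
      simp
    · simp only [ω, AdjoinRoot.map_root]
      rfl
  refine ⟨_, B, ω, ?_, ?_⟩
  · intro x
    have h1 : algebraMap K (AdjoinRoot G) x = AdjoinRoot.of G (C x) := rfl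
    have h2 : algebraMap k (AdjoinRoot G') (algebraMap K k x) =
      AdjoinRoot.of G' (C (algebraMap K k x)) := rfl
    rw [h1, h2]
    simp only [ω, AdjoinRoot.map_of]
    simp
  · have h1 := B'.linearIndependent.comp (fun i : ℕ × Fin (AdjoinRoot.powerBasis' hG).dim =>
      ((i.1, Fin.cast hdim i.2) : ℕ × Fin (AdjoinRoot.powerBasis' hG').dim)) (by
        rintro ⟨a, b⟩ ⟨c, d⟩ h
        simp only [Prod.mk.injEq] at h
        obtain ⟨h1, h2⟩ := h
        rw [h1, Fin.cast_injective hdim h2])
    have h2 : (fun i => ω (B i)) = B' ∘ (fun i : ℕ × Fin (AdjoinRoot.powerBasis' hG).dim =>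
      ((i.1, Fin.cast hdim i.2) : ℕ × Fin (AdjoinRoot.powerBasis' hG').dim)) := by
      funext i
      exact hω i
    rw [h2]
    exact h1

/-- The induction. -/
lemma exists_domain {K k : Type u} [Field K] [Field k] [IsAlgClosed k] [Algebra K k]
    {A A' : Type u} [CommRing A] [Algebra K A] [CommRing A'] [IsDomain A'] [Algebra k A']
    [Algebra.FiniteType k A'] {ι : Type} (B : Module.Basis ι K A) (ω : A →+* A')
    (hω : ∀ x : K, ω (algebraMap K _ x) = algebraMap k _ (algebraMap K k x))
    (hB : LinearIndependent k (fun i => ω (B i))) (N : ℕ) :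
    ∃ (D : Type u) (_ : CommRing D) (_ : IsDomain D) (_ : Algebra k D)
      (φ : Fin N → (A →+* D)),
      (∀ j (x : K), φ j (algebraMap K _ x) = algebraMap k _ (algebraMap K k x)) ∧
      LinearIndependent k (fun ε : Fin N → ι => ∏ j, φ j (B (ε j))) := by
  classical
  induction N with
  | zero =>
    refine ⟨k, inferInstance, inferInstance, inferInstance, fun j => j.elim0, fun j => j.elim0, ?_⟩
    rw [linearIndependent_unique_iff]
    simp
  | succ N ih =>
    obtain ⟨D, _, _, _, φ, hφ, hind⟩ := ih
    have hdom : IsDomain (A' ⊗[k] D) := isDomain_tensorProduct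
    refine ⟨A' ⊗[k] D, inferInstance, hdom, inferInstance,
      Fin.cons ((Algebra.TensorProduct.includeLeft : A' →ₐ[k] A' ⊗[k] D).toRingHom.comp ω)
        (fun j => (Algebra.TensorProduct.includeRight : D →ₐ[k] A' ⊗[k] D).toRingHom.comp (φ j)),
      ?_, ?_⟩
    · intro j x
      refine Fin.cases ?_ ?_ j
      · rw [Fin.cons_zero]
        simp [hω]
      · intro j
        rw [Fin.cons_succ]
        simp only [AlgHom.toRingHom_eq_coe, RingHom.coe_comp, RingHom.coe_coe,
          Function.comp_apply, hφ]
        exact AlgHom.commutes _ _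
    · have h1 := hB.tmul_of_flat_left hind
      have h2 := h1.comp (fun ε : Fin (N + 1) → ι => (ε 0, fun j : Fin N => ε j.succ)) (by
        intro ε ε' h
        simp only [Prod.mk.injEq] at h
        funext j
        refine Fin.cases h.1 (fun j => congrFun h.2 j) j)
      have h3 : (fun ε : Fin (N + 1) → ι => ∏ j, (Fin.cons
          ((Algebra.TensorProduct.includeLeft : A' →ₐ[k] A' ⊗[k] D).toRingHom.comp ω)
          (fun j => (Algebra.TensorProduct.includeRight : D →ₐ[k] A' ⊗[k] D).toRingHom.comp
            (φ j)) : Fin (N + 1) → (A →+* A' ⊗[k] D)) j (B (ε j))) =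
          (fun i : ι × (Fin N → ι) => ω (B i.1) ⊗ₜ[k] ∏ j, φ j (B (i.2 j))) ∘
            (fun ε : Fin (N + 1) → ι => (ε 0, fun j : Fin N => ε j.succ)) := by
        funext ε
        rw [Fin.prod_univ_succ]
        simp only [Fin.cons_zero, Fin.cons_succ, Function.comp_apply]
        simp only [AlgHom.toRingHom_eq_coe, RingHom.coe_comp, RingHom.coe_coe,
          Function.comp_apply]
        rw [← map_prod, Algebra.TensorProduct.includeLeft_apply,
          Algebra.TensorProduct.includeRight_apply, Algebra.TensorProduct.tmul_mul_tmul,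
          one_mul, mul_one]
      rw [h3]
      exact h2

/-- C1 -/
theorem isDomain_tensor {K : Type u} [Field K] [CharZero K] {G : K[X][X]} (hG : G.Monic)
    (hr : 0 < G.natDegree)
    (hirr : Irreducible (G.map (mapRingHom (algebraMap K (AlgebraicClosure K))))) (N : ℕ) :
    IsDomain (⨂[K] _ : Fin N, AdjoinRoot G) := by
  classical
  obtain ⟨ι, B, ω, hω, hB⟩ := exists_basis (k := AlgebraicClosure K) hG
  have hprime : Prime (G.map (mapRingHom (algebraMap K (AlgebraicClosure K)))) := hirr.prime
  have hdom : IsDomain (AdjoinRoot (G.map (mapRingHom (algebraMap K (AlgebraicClosure K))))) :=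
    AdjoinRoot.isDomain_of_prime hprime
  have hft : Algebra.FiniteType (AlgebraicClosure K)
      (AdjoinRoot (G.map (mapRingHom (algebraMap K (AlgebraicClosure K))))) := by
    have h1 : Algebra.FiniteType (AlgebraicClosure K) (AlgebraicClosure K)[X] := inferInstance
    have h2 : Algebra.FiniteType (AlgebraicClosure K)[X]
      (AdjoinRoot (G.map (mapRingHom (algebraMap K (AlgebraicClosure K))))) := inferInstance
    exact Algebra.FiniteType.trans h1 h2
  obtain ⟨D, _, _, _, φ, hφ, hind⟩ := exists_domain B ω hω hB N
  let _ : Algebra K D := ((algebraMap (AlgebraicClosure K) D).comp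
    (algebraMap K (AlgebraicClosure K))).toAlgebra
  have htow : IsScalarTower K (AlgebraicClosure K) D := IsScalarTower.of_algebraMap_eq' rfl
  let ψ : Fin N → (AdjoinRoot G →ₐ[K] D) := fun j => { φ j with commutes' := fun x => hφ j x }
  have hinj : Function.Injective (Pool.Agent.Helper16.SYM.evT ψ) := by
    let BN := Basis.piTensorProduct (fun _ : Fin N => B)
    have h1 : ∀ ε, Pool.Agent.Helper16.SYM.evT ψ (BN ε) = ∏ j, φ j (B (ε j)) := by
      intro ε
      simp only [BN]
      rw [Basis.piTensorProduct_apply, Pool.Agent.Helper16.SYM.evT_tprod]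
      rfl
    have h2 : LinearIndependent K (fun ε => Pool.Agent.Helper16.SYM.evT ψ (BN ε)) := by
      simp only [h1]
      exact hind.restrict_scalars' K
    rw [injective_iff_map_eq_zero]
    intro z hz
    have h3 : Finsupp.linearCombination K (fun ε => Pool.Agent.Helper16.SYM.evT ψ (BN ε))
        (BN.repr z) = 0 := by
      rw [← hz]
      conv_rhs => rw [← BN.linearCombination_repr z]
      rw [Finsupp.linearCombination_apply, Finsupp.linearCombination_apply, Finsupp.sum,
        Finsupp.sum, map_sum]
      refine Finset.sum_congr rfl fun ε _ => ?_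
      rw [map_smul]
    have h4 : BN.repr z = 0 := by
      rw [linearIndependent_iff] at h2
      exact h2 _ h3
    exact (LinearEquiv.map_eq_zero_iff BN.repr).mp h4
  exact Function.Injective.isDomain (Pool.Agent.Helper16.SYM.evT ψ).toRingHom hinj

end Pool.Agent.Helper50.SYM
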